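import Pool.Agent.Y371.SQ.Main

set_option autoImplicit false

/-!
# Unit discs in a square: the quadratic bound is never attained

`side n` is the least side length `s_n` of a square which contains `n` nonoverlapping unit discs.
For every `n ≥ 1`, `√12 n ≥ (s_n - 2)^2 + (2/3) (s_n - 2) + √3`. So the equality
`√12 n = s_n^2 - (3 + √3) s_n + 2 + 2 √3` holds for no `n`, and equality with `s_n^2 - a s_n + b`,
`a > 10/3`, holds for only finitely many `n`.

Packings: hexagonal packings, with one more row than the height allows (the distances in the rows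
are enlarged a little) when the fractional parts of the side length are unfavourable.
-/

namespace Pool.Agent.Results.MP_77b5a8_co.EqualityNeverHolds

open Pool.Agent.Y371.SQ (Fits side)

/-- For every `n ≥ 1` the minimum `side n` is attained, `√12 n` is at least
`(side n - 2)^2 + (2/3) (side n - 2) + √3`, and greater than
`F (side n) = (side n)^2 - (3 + √3) (side n) + 2 + 2 √3`; so `√12 n = F (side n)` holds for no `n`.
For all real `a > 10/3` and `b`, `√12 n = (side n)^2 - a (side n) + b` for only finitely many `n`. -/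
theorem result :
    (∀ n : ℕ, 1 ≤ n → IsLeast {s | Fits n s} (side n) ∧
      (side n - 2) ^ 2 + 2 / 3 * (side n - 2) + √3 ≤ √12 * n ∧
      side n ^ 2 - (3 + √3) * side n + 2 + 2 * √3 < √12 * n) ∧
    (¬ ∃ n : ℕ, 1 ≤ n ∧ √12 * n = side n ^ 2 - (3 + √3) * side n + 2 + 2 * √3) ∧
    ∀ a b : ℝ, 10 / 3 < a →
      {n : ℕ | 1 ≤ n ∧ √12 * n = side n ^ 2 - a * side n + b}.Finite := by
  have h1 : ∀ n : ℕ, 1 ≤ n → side n ^ 2 - (3 + √3) * side n + 2 + 2 * √3 < √12 * n := by
    intro n hn
    have hm := Pool.Agent.Y371.SQ.main_bound hn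
    have hs := Pool.Agent.Y371.SQ.two_le_of_fits hn (Pool.Agent.Y371.SQ.isLeast_side hn).1
    obtain ⟨ha1, ha2, ha3⟩ := Pool.Agent.Y371.SQ.sqrt3_bounds
    nlinarith
  refine ⟨fun n hn => ⟨Pool.Agent.Y371.SQ.isLeast_side hn, Pool.Agent.Y371.SQ.main_bound hn,
    h1 n hn⟩, fun ⟨n, hn, he⟩ => (h1 n hn).ne' he, fun a b hab => ?_⟩
  refine (Set.finite_Iic ((⌊(b - 8 / 3 - √3) / (a - 10 / 3)⌋₊ + 1) ^ 2)).subset ?_
  rintro n ⟨hn, he⟩
  refine Pool.Agent.Y371.SQ.side_large hn ?_
  have hm := Pool.Agent.Y371.SQ.main_bound hn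
  rw [he] at hm
  rw [le_div_iff₀ (by linarith)]
  nlinarith

end Pool.Agent.Results.MP_77b5a8_co.EqualityNeverHolds
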